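import Mathlib
import Pool.Agent.X206.Billiard

set_option autoImplicit false

open MeasureTheory Set Filter Topology Complex
open scoped ENNReal Real ContDiff

namespace Pool.Agent.Results.MP_fd4af6_gt.BilliardApprox

open Pool.Agent.X206.Bill

/-! ### monotone length functions -/

structure QM (F : ℝ → ℝ) : Prop where
  mono : Monotone F
  shift : ∀ y, F (y + 2 * π) = F y + 1
  closed : ∫ y in (0:ℝ)..(2 * π), Complex.exp (y * I) * (F y : ℂ) = -I

theorem exp_cont : Continuous fun y : ℝ => Complex.exp (y * I) := exp_contDiff.continuous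

theorem exp_two_pi : Complex.exp (((2 * π : ℝ) : ℂ) * I) = 1 := by
  have := exp_per 0
  rw [zero_add] at this
  rw [this]; simp

theorem lin_int (a : ℝ) :
    ∫ y in (0:ℝ)..(2 * π), Complex.exp (y * I) * (((y - a) / (2 * π) : ℝ) : ℂ) = -I := by
  have hpi : (π : ℂ) ≠ 0 := by exact_mod_cast Real.pi_ne_zero
  have hd : ∀ y : ℝ, HasDerivAt (fun y : ℝ => (1 / (2 * π) : ℂ) *
      (-I * ((y : ℂ) * Complex.exp (y * I)) + (1 + I * a) * Complex.exp (y * I)))
      (Complex.exp (y * I) * (((y - a) / (2 * π) : ℝ) : ℂ)) y := by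
    intro y
    have h1 : HasDerivAt (fun y : ℝ => (y : ℂ)) 1 y := Complex.ofRealCLM.hasDerivAt
    have h2 := exp_hasDeriv y
    have h3 := (((h1.mul h2).const_mul (-I)).add (h2.const_mul (1 + I * a))).const_mul
      (1 / (2 * π) : ℂ)
    refine h3.congr_deriv ?_
    push_cast
    field_simp
    linear_combination ((a : ℂ) - y) * Complex.I_sq
  rw [intervalIntegral.integral_eq_sub_of_hasDerivAt (fun y _ => hd y)]
  · rw [exp_two_pi]
    push_cast
    simp
    field_simp
    ring
  · exact (exp_cont.mul (Complex.continuous_ofReal.comp (by fun_prop))).intervalIntegrable _ _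

theorem ii_ofReal {f : ℝ → ℝ} {a b : ℝ} (h : IntervalIntegrable f volume a b) :
    IntervalIntegrable (fun x => (f x : ℂ)) volume a b := ⟨h.1.ofReal, h.2.ofReal⟩

theorem swap {f : ℝ → ℝ → ℂ} {a b c d M : ℝ} (hab : a ≤ b) (hcd : c ≤ d)
    (hm : Measurable (Function.uncurry f))
    (hb : ∀ y ∈ Icc a b, ∀ t ∈ Icc c d, ‖f y t‖ ≤ M) :
    ∫ y in a..b, ∫ t in c..d, f y t = ∫ t in c..d, ∫ y in a..b, f y t := by
  simp only [intervalIntegral.integral_of_le hab, intervalIntegral.integral_of_le hcd]
  apply integral_integral_swap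
  apply Integrable.of_bound hm.aestronglyMeasurable M
  rw [Measure.prod_restrict]
  rw [ae_restrict_iff' (measurableSet_Ioc.prod measurableSet_Ioc)]
  filter_upwards with z hz
  exact hb z.1 (Ioc_subset_Icc_self hz.1) z.2 (Ioc_subset_Icc_self hz.2)

theorem per_closed {F : ℝ → ℝ} (hF : QM F) :
    ∫ y in (0:ℝ)..(2 * π), Complex.exp (y * I) * ((F y - y / (2 * π) : ℝ) : ℂ) = 0 := by
  have i1 : IntervalIntegrable (fun y : ℝ => Complex.exp (y * I) * (F y : ℂ)) volume 0 (2 * π) :=
    (ii_ofReal hF.mono.intervalIntegrable).continuousOn_mul exp_cont.continuousOn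
  have i2 : IntervalIntegrable (fun y : ℝ => Complex.exp (y * I) * ((y / (2 * π) : ℝ) : ℂ))
      volume 0 (2 * π) :=
    (exp_cont.mul (Complex.continuous_ofReal.comp (by fun_prop))).intervalIntegrable _ _
  have : (fun y : ℝ => Complex.exp (y * I) * ((F y - y / (2 * π) : ℝ) : ℂ))
      = fun y : ℝ => Complex.exp (y * I) * (F y : ℂ)
        - Complex.exp (y * I) * ((y / (2 * π) : ℝ) : ℂ) := by
    funext y; push_cast; ring
  rw [this, intervalIntegral.integral_sub i1 i2, hF.closed]
  have h := lin_int 0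
  simp only [sub_zero] at h
  rw [h]; ring

theorem shift_closed {F : ℝ → ℝ} (hF : QM F) (a : ℝ) :
    ∫ y in (0:ℝ)..(2 * π), Complex.exp (y * I) * (F (y - a) : ℂ) = -I := by
  set P : ℝ → ℂ := fun y => Complex.exp (y * I) * ((F y - y / (2 * π) : ℝ) : ℂ) with hP
  have hper : Function.Periodic P (2 * π) := by
    intro y
    simp only [hP]
    rw [exp_per, hF.shift]
    congr 2
    have := Real.pi_ne_zero
    field_simp
    ring
  have h0 : ∫ y in (-a)..(-a + 2 * π), P y = 0 := by
    rw [hper.intervalIntegral_add_eq (-a) 0, zero_add]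
    exact per_closed hF
  have h1 : ∫ y in (0:ℝ)..(2 * π), P (y - a) = 0 := by
    rw [intervalIntegral.integral_comp_sub_right (fun y => P y) a]
    rw [show (0:ℝ) - a = -a by ring, show 2 * π - a = -a + 2 * π by ring]
    exact h0
  have hI : ∀ y : ℝ, Complex.exp (y * I) * (F (y - a) : ℂ)
      = Complex.exp (a * I) * P (y - a) + Complex.exp (y * I) * (((y - a) / (2 * π) : ℝ) : ℂ) := by
    intro y
    simp only [hP]
    have : Complex.exp (y * I) = Complex.exp (a * I) * Complex.exp (((y - a : ℝ) : ℂ) * I) := by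
      rw [← Complex.exp_add]; congr 1; push_cast; ring
    rw [this]; push_cast; ring
  have i1 : IntervalIntegrable (fun y : ℝ => Complex.exp (a * I) * P (y - a)) volume 0 (2 * π) := by
    apply IntervalIntegrable.const_mul
    have h2 : IntervalIntegrable P volume (0 - a) (2 * π - a) := by
      have : IntervalIntegrable (fun y => F y - y / (2 * π)) volume (0 - a) (2 * π - a) :=
        hF.mono.intervalIntegrable.sub ((by fun_prop : Continuous fun y : ℝ =>
          y / (2 * π)).intervalIntegrable _ _)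
      exact (ii_ofReal this).continuousOn_mul exp_cont.continuousOn
    have := h2.comp_sub_right a
    simpa using this
  have i2 : IntervalIntegrable (fun y : ℝ => Complex.exp (y * I) * (((y - a) / (2 * π) : ℝ) : ℂ))
      volume 0 (2 * π) :=
    (exp_cont.mul (Complex.continuous_ofReal.comp (by fun_prop))).intervalIntegrable _ _
  simp only [hI]
  rw [intervalIntegral.integral_add i1 i2, intervalIntegral.integral_const_mul, h1, lin_int]
  ring

/-- mollification of a monotone length function -/
theorem moll {F : ℝ → ℝ} (hF : QM F) {ε : ℝ} (hε : 0 < ε) (hε1 : ε < 1) :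
    ∃ H : ℝ → ℝ, QF H ∧ (∀ y, (1 - ε) * F (y - ε) + ε * (y / (2 * π)) ≤ H y) ∧
      ∀ y, H y ≤ (1 - ε) * F (y + ε) + ε * (y / (2 * π)) := by
  have hpi := Real.pi_pos
  let ρ : ContDiffBump (0 : ℝ) := ⟨ε / 2, ε, by linarith, by linarith⟩
  set k : ℝ → ℝ := ρ.normed volume with hk
  have hk0 : ∀ a, 0 ≤ k a := fun a => ρ.nonneg_normed a
  have hkc : Continuous k := ρ.continuous_normed
  have hksupp : Function.support k = Metric.ball 0 ε := ρ.support_normed_eq
  have hkz : ∀ a, ε ≤ |a| → k a = 0 := by
    intro a ha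
    by_contra h
    have : a ∈ Function.support k := h
    rw [hksupp, Metric.mem_ball, dist_zero_right, Real.norm_eq_abs] at this
    linarith
  have hkcs : HasCompactSupport k := ρ.hasCompactSupport_normed
  have hkint : Integrable k := ρ.integrable_normed
  have hk1 : ∫ a, k a = 1 := ρ.integral_normed
  have hFloc : LocallyIntegrable F volume := hF.mono.locallyIntegrable
  have hFm : Measurable F := hF.mono.measurable
  set A : ℝ → ℝ := fun y => ∫ a, k a * F (y - a) with hA
  have hAconv : A = (convolution k F (ContinuousLinearMap.lsmul ℝ ℝ) volume) := by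
    funext y
    simp [hA, convolution_def]
  have hAsm : ContDiff ℝ ∞ A := by
    rw [hAconv]
    exact hkcs.contDiff_convolution_left _ ρ.contDiff_normed hFloc
  have hAint : ∀ y, Integrable fun a => k a * F (y - a) := by
    intro y
    have := (hkcs.convolutionExists_left (ContinuousLinearMap.lsmul ℝ ℝ) hkc hFloc) y
    simpa [ConvolutionExistsAt] using this
  have hkF : ∀ c : ℝ, ∫ a, k a * c = c := by
    intro c; rw [integral_mul_const, hk1, one_mul]
  have hlow : ∀ y, F (y - ε) ≤ A y := by
    intro y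
    rw [← hkF (F (y - ε))]
    apply integral_mono (hkint.mul_const _) (hAint y)
    intro a
    simp only
    by_cases ha : ε ≤ |a|
    · rw [hkz a ha]; simp
    · push Not at ha
      apply mul_le_mul_of_nonneg_left _ (hk0 a)
      apply hF.mono
      linarith [(abs_lt.1 ha).2]
  have hupp : ∀ y, A y ≤ F (y + ε) := by
    intro y
    rw [← hkF (F (y + ε))]
    apply integral_mono (hAint y) (hkint.mul_const _)
    intro a
    simp only
    by_cases ha : ε ≤ |a|
    · rw [hkz a ha]; simp
    · push Not at ha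
      apply mul_le_mul_of_nonneg_left _ (hk0 a)
      apply hF.mono
      linarith [(abs_lt.1 ha).1]
  have hAmono : Monotone A := by
    intro x y hxy
    apply integral_mono (hAint x) (hAint y)
    intro a
    exact mul_le_mul_of_nonneg_left (hF.mono (by linarith)) (hk0 a)
  have hAshift : ∀ y, A (y + 2 * π) = A y + 1 := by
    intro y
    simp only [hA]
    have : ∀ a, k a * F (y + 2 * π - a) = k a * F (y - a) + k a * 1 := by
      intro a
      rw [show y + 2 * π - a = (y - a) + 2 * π by ring, hF.shift]; ring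
    simp only [this]
    rw [integral_add (hAint y) (hkint.mul_const _), hkF]
  -- the closing condition for `A`
  have hAclosed : ∫ y in (0:ℝ)..(2 * π), Complex.exp (y * I) * (A y : ℂ) = -I := by
    have hsub : ∀ g : ℝ → ℂ, ∫ a in (-1:ℝ)..1, (k a : ℂ) * g a = ∫ a, (k a : ℂ) * g a := by
      intro g
      apply intervalIntegral.integral_eq_integral_of_support_subset
      intro a ha
      have : k a ≠ 0 := by
        intro h; apply ha; simp [h]
      have : |a| < ε := by
        by_contra h; exact this (hkz a (not_lt.1 h))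
      have := abs_lt.1 this
      exact ⟨by linarith, by linarith⟩
    have h1 : ∀ y : ℝ, Complex.exp (y * I) * (A y : ℂ)
        = ∫ a in (-1:ℝ)..1, Complex.exp (y * I) * ((k a : ℂ) * (F (y - a) : ℂ)) := by
      intro y
      rw [intervalIntegral.integral_const_mul, hsub]
      congr 1
      simp only [hA]
      rw [← integral_complex_ofReal]
      congr 1; funext a; push_cast; ring
    simp only [h1]
    obtain ⟨Mk, hMk⟩ := hkcs.exists_bound_of_continuous hkc
    have hMk0 : 0 ≤ Mk := (norm_nonneg _).trans (hMk 0)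
    set MF := max |F (-1)| |F (2 * π + 1)| with hMF
    rw [swap (M := Mk * MF) (by positivity) (by norm_num)]
    · have h2 : ∀ a : ℝ, ∫ y in (0:ℝ)..(2 * π), Complex.exp (y * I) * ((k a : ℂ) * (F (y - a) : ℂ))
          = (k a : ℂ) * (-I) := by
        intro a
        rw [← shift_closed hF a, ← intervalIntegral.integral_const_mul]
        congr 1; funext y; ring
      simp only [h2]
      rw [hsub, integral_mul_const]
      have : ∫ a, (k a : ℂ) = 1 := by
        rw [integral_complex_ofReal, hk1]; simp
      rw [this, one_mul]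
    · have m1 : Measurable fun z : ℝ × ℝ => Complex.exp (z.1 * I) :=
        exp_cont.measurable.comp measurable_fst
      have m2 : Measurable fun z : ℝ × ℝ => (k z.2 : ℂ) :=
        Complex.measurable_ofReal.comp (hkc.measurable.comp measurable_snd)
      have m3 : Measurable fun z : ℝ × ℝ => (F (z.1 - z.2) : ℂ) :=
        Complex.measurable_ofReal.comp (hFm.comp (measurable_fst.sub measurable_snd))
      exact m1.mul (m2.mul m3)
    · intro y hy t ht
      rw [norm_mul, exp_norm, one_mul, norm_mul, Complex.norm_real, Complex.norm_real]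
      apply mul_le_mul (hMk t) _ (norm_nonneg _) hMk0
      rw [Real.norm_eq_abs]
      have l1 : F (-1) ≤ F (y - t) := hF.mono (by linarith [hy.1, ht.2])
      have l2 : F (y - t) ≤ F (2 * π + 1) := hF.mono (by linarith [hy.2, ht.1])
      rw [abs_le]
      constructor
      · have := neg_abs_le (F (-1))
        have := le_max_left |F (-1)| |F (2 * π + 1)|
        linarith
      · have := le_abs_self (F (2 * π + 1))
        have := le_max_right |F (-1)| |F (2 * π + 1)|
        linarith
  refine ⟨fun y => (1 - ε) * A y + ε * (y / (2 * π)), ⟨?_, ?_, ?_, ?_⟩, ?_, ?_⟩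
  · exact (contDiff_const.mul hAsm).add (contDiff_const.mul (contDiff_id.div_const _))
  · intro y
    have hAd : HasDerivAt A (deriv A y) y := (hAsm.differentiable (by simp) y).hasDerivAt
    have h1 : HasDerivAt (fun y => (1 - ε) * A y + ε * (y / (2 * π)))
        ((1 - ε) * deriv A y + ε * (1 / (2 * π))) y :=
      (hAd.const_mul _).add (((hasDerivAt_id y).div_const _).const_mul _)
    rw [h1.deriv]
    have h2 : 0 ≤ deriv A y := hAmono.deriv_nonneg
    have h3 : 0 < ε * (1 / (2 * π)) := by positivity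
    have h4 := mul_nonneg (by linarith : 0 ≤ 1 - ε) h2
    linarith
  · intro y
    rw [hAshift]
    field_simp
    ring
  · have i1 : IntervalIntegrable (fun y : ℝ => Complex.exp (y * I) * (A y : ℂ)) volume 0 (2 * π) :=
      (exp_cont.mul (Complex.continuous_ofReal.comp hAsm.continuous)).intervalIntegrable _ _
    have i2 : IntervalIntegrable (fun y : ℝ => Complex.exp (y * I) * (((y - 0) / (2 * π) : ℝ) : ℂ))
        volume 0 (2 * π) :=
      (exp_cont.mul (Complex.continuous_ofReal.comp (by fun_prop))).intervalIntegrable _ _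
    have : (fun y : ℝ => Complex.exp (y * I) * (((1 - ε) * A y + ε * (y / (2 * π)) : ℝ) : ℂ))
        = fun y : ℝ => (1 - ε : ℂ) * (Complex.exp (y * I) * (A y : ℂ))
          + (ε : ℂ) * (Complex.exp (y * I) * (((y - 0) / (2 * π) : ℝ) : ℂ)) := by
      funext y; push_cast; ring
    rw [this, intervalIntegral.integral_add (i1.const_mul _) (i2.const_mul _),
      intervalIntegral.integral_const_mul, intervalIntegral.integral_const_mul, hAclosed, lin_int]
    ring
  · intro y
    have := mul_le_mul_of_nonneg_left (hlow y) (by linarith : 0 ≤ 1 - ε)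
    simp only
    linarith
  · intro y
    have := mul_le_mul_of_nonneg_left (hupp y) (by linarith : 0 ≤ 1 - ε)
    simp only
    linarith

/-! ### the length function of a monotone tangent angle -/

theorem int_fract : ∫ x in (0:ℝ)..1, Int.fract x = 1 / 2 := by
  have : ∫ x in (0:ℝ)..1, Int.fract x = ∫ x in (0:ℝ)..1, x := by
    apply intervalIntegral.integral_congr_ae
    have h1 : ∀ᵐ x : ℝ, x ≠ 1 := by simp [ae_iff, measure_singleton]
    filter_upwards [h1] with x hx hx2
    rw [uIoc_of_le zero_le_one] at hx2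
    exact Int.fract_eq_self.2 ⟨hx2.1.le, lt_of_le_of_ne hx2.2 hx⟩
  rw [this, integral_id]; norm_num

theorem int_floor_sub (t' : ℝ) : ∫ t in (0:ℝ)..1, ((⌊t' - t⌋ : ℤ) : ℝ) = t' - 1 := by
  have hfr : ∫ t in (0:ℝ)..1, Int.fract (t' - t) = 1 / 2 := by
    rw [intervalIntegral.integral_comp_sub_left (fun x => Int.fract x) t', sub_zero]
    have hp : Function.Periodic (fun x : ℝ => Int.fract x) 1 := fun x => Int.fract_add_one x
    have := hp.intervalIntegral_add_eq (t' - 1) 0
    rw [sub_add_cancel, zero_add] at this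
    rw [this, int_fract]
  have hfi : IntervalIntegrable (fun t : ℝ => Int.fract (t' - t)) volume 0 1 := by
    have hm : Measurable fun t : ℝ => Int.fract (t' - t) :=
      measurable_fract.comp (measurable_const.sub measurable_id)
    have h1 : IntervalIntegrable (fun _ : ℝ => (1:ℝ)) volume 0 1 := intervalIntegrable_const
    refine h1.mono_fun hm.aestronglyMeasurable (Filter.Eventually.of_forall fun x => ?_)
    simp only [Real.norm_eq_abs, abs_one]
    rw [abs_of_nonneg (Int.fract_nonneg _)]
    exact (Int.fract_lt_one _).le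
  have h2 : (fun t : ℝ => ((⌊t' - t⌋ : ℤ) : ℝ)) = fun t => (t' - t) - Int.fract (t' - t) := by
    funext t; rw [Int.self_sub_fract]
  rw [h2, intervalIntegral.integral_sub ((by fun_prop : Continuous fun t : ℝ =>
    t' - t).intervalIntegrable _ _) hfi, hfr]
  rw [intervalIntegral.integral_sub intervalIntegrable_const intervalIntegral.intervalIntegrable_id,
    integral_id]
  simp
  ring

theorem floor_closed (b : ℝ) :
    ∫ y in (0:ℝ)..(2 * π), Complex.exp (y * I) * (((1 + ⌊(y - b) / (2 * π)⌋ : ℤ) : ℝ) : ℂ)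
      = -I + I * Complex.exp (b * I) := by
  have hpi := Real.pi_pos
  set P : ℝ → ℂ := fun y => Complex.exp (y * I) * ((1 - Int.fract ((y - b) / (2 * π)) : ℝ) : ℂ)
    with hP
  have hfm : Measurable fun y : ℝ => Int.fract ((y - b) / (2 * π)) :=
    measurable_fract.comp ((measurable_id.sub_const b).div_const _)
  have hPi : ∀ u v, IntervalIntegrable P volume u v := by
    intro u v
    apply bdd_int (K := 1)
    · exact exp_cont.measurable.mul (Complex.measurable_ofReal.comp (measurable_const.sub hfm))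
    · intro x
      rw [norm_mul, exp_norm, one_mul, Complex.norm_real, Real.norm_eq_abs, abs_le]
      have h1 := Int.fract_nonneg ((x - b) / (2 * π))
      have h2 := (Int.fract_lt_one ((x - b) / (2 * π))).le
      constructor <;> linarith
  have hper : Function.Periodic P (2 * π) := by
    intro y
    simp only [hP]
    rw [exp_per]
    have : (y + 2 * π - b) / (2 * π) = (y - b) / (2 * π) + 1 := by field_simp; ring
    rw [this, Int.fract_add_one]
  have h1 : ∫ y in (0:ℝ)..(2 * π), P y = I * Complex.exp (b * I) := by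
    have h2 := hper.intervalIntegral_add_eq 0 b
    rw [zero_add] at h2
    rw [h2]
    have h3 : ∫ y in b..(b + 2 * π), P y
        = ∫ y in b..(b + 2 * π), Complex.exp (y * I) * ((1 - (y - b) / (2 * π) : ℝ) : ℂ) := by
      apply intervalIntegral.integral_congr_ae
      have h1 : ∀ᵐ x : ℝ, x ≠ b + 2 * π := by simp [ae_iff, measure_singleton]
      filter_upwards [h1] with x hx hx2
      rw [uIoc_of_le (by linarith)] at hx2
      have hx3 : x < b + 2 * π := lt_of_le_of_ne hx2.2 hx
      simp only [hP]
      rw [Int.fract_eq_self.2]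
      constructor
      · apply div_nonneg <;> linarith [hx2.1]
      · rw [div_lt_one (by positivity)]; linarith
    rw [h3]
    have h4 : ∫ y in b..(b + 2 * π), Complex.exp (y * I) * ((1 - (y - b) / (2 * π) : ℝ) : ℂ)
        = ∫ u in (0:ℝ)..(2 * π), Complex.exp (((u + b : ℝ) : ℂ) * I) * ((1 - u / (2 * π) : ℝ) : ℂ) := by
      have := intervalIntegral.integral_comp_add_right (a := 0) (b := 2 * π)
        (fun y : ℝ => Complex.exp (y * I) * ((1 - (y - b) / (2 * π) : ℝ) : ℂ)) b
      simp only [add_sub_cancel_right, zero_add] at this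
      rw [add_comm b, ← this]
    rw [h4]
    have h5 : ∀ u : ℝ, Complex.exp (((u + b : ℝ) : ℂ) * I) * ((1 - u / (2 * π) : ℝ) : ℂ)
        = -Complex.exp (b * I) * (Complex.exp (u * I) * (((u - 2 * π) / (2 * π) : ℝ) : ℂ)) := by
      intro u
      have e1 : Complex.exp (((u + b : ℝ) : ℂ) * I) = Complex.exp (b * I) * Complex.exp (u * I) := by
        rw [← Complex.exp_add]; congr 1; push_cast; ring
      have e2 : (u - 2 * π) / (2 * π) = -(1 - u / (2 * π)) := by field_simp; ring
      rw [e1, e2]; push_cast; ring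
    simp only [h5]
    rw [intervalIntegral.integral_const_mul, lin_int]
    ring
  have i2 : IntervalIntegrable (fun y : ℝ => Complex.exp (y * I) * (((y - b) / (2 * π) : ℝ) : ℂ))
      volume 0 (2 * π) :=
    (exp_cont.mul (Complex.continuous_ofReal.comp (by fun_prop))).intervalIntegrable _ _
  have h6 : (fun y : ℝ => Complex.exp (y * I) * (((1 + ⌊(y - b) / (2 * π)⌋ : ℤ) : ℝ) : ℂ))
      = fun y : ℝ => Complex.exp (y * I) * (((y - b) / (2 * π) : ℝ) : ℂ) + P y := by
    funext y
    simp only [hP]
    rw [← mul_add, ← Complex.ofReal_add]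
    congr 2
    push_cast
    have := Int.self_sub_fract ((y - b) / (2 * π))
    linarith
  rw [h6, intervalIntegral.integral_add i2 (hPi _ _), h1, lin_int]

section theta

variable {θ : ℝ → ℝ} (hθ : Monotone θ) (hs : ∀ t, θ (t + 1) = θ t + 2 * π)

/-- the length function of the tangent angle `θ` -/
noncomputable def LF (θ : ℝ → ℝ) (y : ℝ) : ℝ :=
  ∫ t in (0:ℝ)..1, (((1 + ⌊(y - θ t) / (2 * π)⌋ : ℤ)) : ℝ)

include hθ in
theorem LF_int (y a b : ℝ) :
    IntervalIntegrable (fun t => (((1 + ⌊(y - θ t) / (2 * π)⌋ : ℤ)) : ℝ)) volume a b := by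
  apply Antitone.intervalIntegrable
  intro s t hst
  have h1 : (y - θ t) / (2 * π) ≤ (y - θ s) / (2 * π) := by
    apply div_le_div_of_nonneg_right _ (by positivity)
    linarith [hθ hst]
  have h2 := Int.floor_le_floor h1
  simp only
  exact_mod_cast (by omega : 1 + ⌊(y - θ t) / (2 * π)⌋ ≤ 1 + ⌊(y - θ s) / (2 * π)⌋)

include hθ in
theorem LF_mono : Monotone (LF θ) := by
  intro x y hxy
  apply intervalIntegral.integral_mono_on zero_le_one (LF_int hθ x 0 1) (LF_int hθ y 0 1)
  intro t _
  have h1 : (x - θ t) / (2 * π) ≤ (y - θ t) / (2 * π) := by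
    apply div_le_div_of_nonneg_right _ (by positivity)
    linarith
  have h2 := Int.floor_le_floor h1
  exact_mod_cast (by omega : 1 + ⌊(x - θ t) / (2 * π)⌋ ≤ 1 + ⌊(y - θ t) / (2 * π)⌋)

include hθ in
theorem LF_shift (y : ℝ) : LF θ (y + 2 * π) = LF θ y + 1 := by
  unfold LF
  have : ∀ t, (((1 + ⌊(y + 2 * π - θ t) / (2 * π)⌋ : ℤ)) : ℝ)
      = (((1 + ⌊(y - θ t) / (2 * π)⌋ : ℤ)) : ℝ) + 1 := by
    intro t
    have h1 : (y + 2 * π - θ t) / (2 * π) = (y - θ t) / (2 * π) + 1 := by
      have := Real.pi_ne_zero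
      field_simp; ring
    rw [h1, Int.floor_add_one]; push_cast; ring
  simp only [this]
  rw [intervalIntegral.integral_add (LF_int hθ y 0 1) intervalIntegrable_const]
  simp

include hs in
theorem th_int (t : ℝ) (n : ℤ) : θ (t + n) = θ t + n * (2 * π) := by
  induction n using Int.induction_on with
  | zero => simp
  | succ i ih =>
    have := hs (t + i)
    push_cast at *
    rw [show t + (i + 1) = t + i + 1 by ring, this, ih]; ring
  | pred i ih =>
    have := hs (t + (-i - 1))
    push_cast at *
    rw [show t + (-i - 1) + 1 = t + -i by ring, ih] at this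
    linarith

theorem LF_eq (y : ℝ) (hi : IntervalIntegrable (fun t => ((⌊(y - θ t) / (2 * π)⌋ : ℤ) : ℝ)) volume 0 1) :
    LF θ y = 1 + ∫ t in (0:ℝ)..1, ((⌊(y - θ t) / (2 * π)⌋ : ℤ) : ℝ) := by
  unfold LF
  push_cast
  rw [intervalIntegral.integral_add intervalIntegrable_const hi]
  simp

include hθ in
theorem fl_int (y a b : ℝ) :
    IntervalIntegrable (fun t => ((⌊(y - θ t) / (2 * π)⌋ : ℤ) : ℝ)) volume a b := by
  have := (LF_int hθ y a b).sub (intervalIntegrable_const (c := (1:ℝ)))
  refine this.congr ?_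
  intro t _
  simp only
  push_cast
  ring

theorem fls_int (t' a b : ℝ) :
    IntervalIntegrable (fun t : ℝ => ((⌊t' - t⌋ : ℤ) : ℝ)) volume a b := by
  apply Antitone.intervalIntegrable
  intro s t hst
  simp only
  exact_mod_cast Int.floor_le_floor (by linarith : t' - t ≤ t' - s)

include hθ hs in
theorem LF_ge {t' y : ℝ} (h : θ t' ≤ y) : t' ≤ LF θ y := by
  rw [LF_eq y (fl_int hθ y 0 1)]
  have h1 := int_floor_sub t'
  have h2 : ∫ t in (0:ℝ)..1, ((⌊t' - t⌋ : ℤ) : ℝ)
      ≤ ∫ t in (0:ℝ)..1, ((⌊(y - θ t) / (2 * π)⌋ : ℤ) : ℝ) := by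
    apply intervalIntegral.integral_mono_on zero_le_one (fls_int t' 0 1) (fl_int hθ y 0 1)
    intro t _
    have h3 : ⌊t' - t⌋ ≤ ⌊(y - θ t) / (2 * π)⌋ := by
      rw [Int.le_floor, le_div_iff₀ (by positivity)]
      have h4 := Int.floor_le (t' - t)
      have h5 := hθ (by linarith : t + (⌊t' - t⌋ : ℤ) ≤ t')
      rw [th_int hs] at h5
      linarith
    exact_mod_cast h3
  linarith

include hθ hs in
theorem LF_le {t' y : ℝ} (h : y < θ t') : LF θ y ≤ t' := by
  rw [LF_eq y (fl_int hθ y 0 1)]
  have h1 := int_floor_sub t'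
  have h2 : ∫ t in (0:ℝ)..1, ((⌊(y - θ t) / (2 * π)⌋ : ℤ) : ℝ)
      ≤ ∫ t in (0:ℝ)..1, ((⌊t' - t⌋ : ℤ) : ℝ) := by
    apply intervalIntegral.integral_mono_on zero_le_one (fl_int hθ y 0 1) (fls_int t' 0 1)
    intro t _
    have h3 : ⌊(y - θ t) / (2 * π)⌋ ≤ ⌊t' - t⌋ := by
      rw [Int.le_floor]
      have h4 := Int.floor_le ((y - θ t) / (2 * π))
      rw [le_div_iff₀ (by positivity)] at h4
      by_contra hcon
      push Not at hcon
      have h5 := hθ (by linarith : t' ≤ t + (⌊(y - θ t) / (2 * π)⌋ : ℤ))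
      rw [th_int hs] at h5
      linarith
    exact_mod_cast h3
  linarith

include hθ in
theorem LF_closed (hc : ∫ t in (0:ℝ)..1, Complex.exp ((θ t : ℝ) * I) = 0) :
    ∫ y in (0:ℝ)..(2 * π), Complex.exp (y * I) * (LF θ y : ℂ) = -I := by
  have hpi := Real.pi_pos
  have h1 : ∀ y : ℝ, Complex.exp (y * I) * (LF θ y : ℂ)
      = ∫ t in (0:ℝ)..1, Complex.exp (y * I) * ((((1 + ⌊(y - θ t) / (2 * π)⌋ : ℤ)) : ℝ) : ℂ) := by
    intro y
    rw [intervalIntegral.integral_const_mul]
    congr 1
    unfold LF
    rw [intervalIntegral.integral_ofReal]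
  simp only [h1]
  have hθm : Measurable θ := hθ.measurable
  rw [swap (M := 1 + (1 + (2 * π + |θ 0| + |θ 1|) / (2 * π))) (by positivity) zero_le_one]
  · simp only [floor_closed]
    have hi : IntervalIntegrable (fun t => Complex.exp ((θ t : ℝ) * I)) volume 0 1 :=
      bdd_int (K := 1) (exp_cont.measurable.comp hθm) (fun x => by
        simp only [Function.comp]; rw [exp_norm]) 0 1
    rw [intervalIntegral.integral_add intervalIntegrable_const (hi.const_mul _),
      intervalIntegral.integral_const_mul, hc]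
    simp
  · have m1 : Measurable fun z : ℝ × ℝ => Complex.exp (z.1 * I) :=
      exp_cont.measurable.comp measurable_fst
    have m2 : Measurable fun z : ℝ × ℝ => (1 + ⌊(z.1 - θ z.2) / (2 * π)⌋ : ℤ) :=
      measurable_const.add ((measurable_fst.sub (hθm.comp measurable_snd)).div_const _).floor
    have m3 : Measurable fun z : ℝ × ℝ => ((((1 + ⌊(z.1 - θ z.2) / (2 * π)⌋ : ℤ)) : ℝ) : ℂ) :=
      Complex.measurable_ofReal.comp ((measurable_from_top (f := fun n : ℤ => (n : ℝ))).comp m2)
    exact m1.mul m3
  · intro y hy t ht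
    rw [norm_mul, exp_norm, one_mul, Complex.norm_real, Real.norm_eq_abs]
    push_cast
    refine (abs_add_le _ _).trans ?_
    rw [abs_one]
    apply add_le_add_right
    have h2 : |((⌊(y - θ t) / (2 * π)⌋ : ℤ) : ℝ)| ≤ 1 + |(y - θ t) / (2 * π)| := by
      have a := Int.floor_le ((y - θ t) / (2 * π))
      have b := (Int.lt_floor_add_one ((y - θ t) / (2 * π))).le
      rw [abs_le]
      constructor
      · have := neg_abs_le ((y - θ t) / (2 * π)); linarith
      · have := le_abs_self ((y - θ t) / (2 * π)); linarith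
    refine h2.trans ?_
    apply add_le_add_right
    rw [abs_div, abs_of_pos (by positivity : (0:ℝ) < 2 * π)]
    apply div_le_div_of_nonneg_right _ (by positivity)
    have l1 := hθ ht.1
    have l2 := hθ ht.2
    have n1 := neg_abs_le (θ 0)
    have n2 := le_abs_self (θ 1)
    have n3 := abs_nonneg (θ 0)
    have n4 := abs_nonneg (θ 1)
    rw [abs_le]
    constructor <;> linarith [hy.1, hy.2]

include hθ in
theorem LF_QM (hc : ∫ t in (0:ℝ)..1, Complex.exp ((θ t : ℝ) * I) = 0) : QM (LF θ) :=
  ⟨LF_mono hθ, LF_shift hθ, LF_closed hθ hc⟩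

end theta

/-! ### estimates for the mollified length functions -/

theorem diff_int {F : ℝ → ℝ} (hF : QM F) (ε : ℝ) :
    ∫ y in (0:ℝ)..(2 * π), (F (y + ε) - F (y - ε)) = 2 * ε := by
  have hpi := Real.pi_ne_zero
  set P : ℝ → ℝ := fun y => F y - y / (2 * π) with hP
  have hper : Function.Periodic P (2 * π) := by
    intro y; simp only [hP]; rw [hF.shift]; field_simp; ring
  have hPi : ∀ a b, IntervalIntegrable P volume a b := fun a b =>
    hF.mono.intervalIntegrable.sub ((by fun_prop : Continuous fun y : ℝ =>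
      y / (2 * π)).intervalIntegrable _ _)
  have h1 : ∫ y in (0:ℝ)..(2 * π), P (y + ε) = ∫ y in (0:ℝ)..(2 * π), P y := by
    rw [intervalIntegral.integral_comp_add_right (fun y => P y) ε, zero_add, add_comm (2 * π) ε,
      hper.intervalIntegral_add_eq ε 0, zero_add]
  have h2 : ∫ y in (0:ℝ)..(2 * π), P (y - ε) = ∫ y in (0:ℝ)..(2 * π), P y := by
    rw [intervalIntegral.integral_comp_sub_right (fun y => P y) ε]
    rw [show (0:ℝ) - ε = -ε by ring, show 2 * π - ε = -ε + 2 * π by ring,
      hper.intervalIntegral_add_eq (-ε) 0, zero_add]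
  have i1 : IntervalIntegrable (fun y => P (y + ε)) volume 0 (2 * π) := by
    have := (hPi (0 + ε) (2 * π + ε)).comp_add_right ε
    simpa using this
  have i2 : IntervalIntegrable (fun y => P (y - ε)) volume 0 (2 * π) := by
    have := (hPi (0 - ε) (2 * π - ε)).comp_sub_right ε
    simpa using this
  have h3 : (fun y => F (y + ε) - F (y - ε)) = fun y => (P (y + ε) - P (y - ε)) + ε / π := by
    funext y; simp only [hP]; field_simp; ring
  rw [h3, intervalIntegral.integral_add (i1.sub i2) intervalIntegrable_const,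
    intervalIntegral.integral_sub i1 i2, h1, h2]
  simp
  field_simp

theorem moll_L1 {F H : ℝ → ℝ} (hF : QM F) (hH : QF H) {ε B : ℝ} (hε : 0 < ε) (hε1 : ε < 1)
    (hB : ∀ y ∈ Icc (-1:ℝ) (2 * π + 1), |F y| ≤ B)
    (h1 : ∀ y, (1 - ε) * F (y - ε) + ε * (y / (2 * π)) ≤ H y)
    (h2 : ∀ y, H y ≤ (1 - ε) * F (y + ε) + ε * (y / (2 * π))) :
    ∫ y in (0:ℝ)..(2 * π), |H y - F y| ≤ (2 + 2 * π * (B + 1)) * ε := by
  have hpi := Real.pi_pos
  have iF : ∀ a b, IntervalIntegrable F volume a b := fun a b => hF.mono.intervalIntegrable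
  have i1 : IntervalIntegrable (fun y => F (y + ε)) volume 0 (2 * π) := by
    have := (iF (0 + ε) (2 * π + ε)).comp_add_right ε
    simpa using this
  have i2 : IntervalIntegrable (fun y => F (y - ε)) volume 0 (2 * π) := by
    have := (iF (0 - ε) (2 * π - ε)).comp_sub_right ε
    simpa using this
  calc ∫ y in (0:ℝ)..(2 * π), |H y - F y|
      ≤ ∫ y in (0:ℝ)..(2 * π), ((F (y + ε) - F (y - ε)) + ε * (B + 1)) := by
        apply intervalIntegral.integral_mono_on (by positivity)
        · exact ((hH.smooth.continuous.intervalIntegrable _ _).sub (iF _ _)).abs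
        · exact (i1.sub i2).add intervalIntegrable_const
        · intro y hy
          have a1 := h1 y
          have a2 := h2 y
          have m1 := hF.mono (by linarith : y - ε ≤ y)
          have m2 := hF.mono (by linarith : y ≤ y + ε)
          have b1 := abs_le.1 (hB (y - ε) ⟨by linarith [hy.1], by linarith [hy.2]⟩)
          have b2 := abs_le.1 (hB (y + ε) ⟨by linarith [hy.1], by linarith [hy.2]⟩)
          have c0 : 0 ≤ y / (2 * π) := div_nonneg hy.1 (by positivity)
          have c1 : y / (2 * π) ≤ 1 := by rw [div_le_one (by positivity)]; exact hy.2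
          have d1 := mul_le_mul_of_nonneg_left b1.2 hε.le
          have d2 := mul_le_mul_of_nonneg_left b2.1 hε.le
          have d3 := mul_nonneg hε.le c0
          have d4 := mul_le_mul_of_nonneg_left c1 hε.le
          rw [abs_le]
          constructor <;> nlinarith
    _ = (2 + 2 * π * (B + 1)) * ε := by
        rw [intervalIntegral.integral_add (i1.sub i2) intervalIntegrable_const, diff_int hF]
        simp
        ring

theorem moll_tendsto {θ : ℝ → ℝ} (hθ : Monotone θ) (hs : ∀ t, θ (t + 1) = θ t + 2 * π)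
    {H : ℕ → ℝ → ℝ} {ε : ℕ → ℝ} (hH : ∀ n, QF (H n)) (hε1 : ∀ n, ε n < 1)
    (hlim : Tendsto ε atTop (𝓝 0))
    (h1 : ∀ n y, (1 - ε n) * LF θ (y - ε n) + ε n * (y / (2 * π)) ≤ H n y)
    (h2 : ∀ n y, H n y ≤ (1 - ε n) * LF θ (y + ε n) + ε n * (y / (2 * π)))
    {t : ℝ} (ht : ContinuousAt θ t) : Tendsto (fun n => Th (H n) t) atTop (𝓝 (θ t)) := by
  refine tendsto_order.2 ⟨?_, ?_⟩
  · intro a ha
    -- a point `t' < t`
    have hev : ∀ᶠ x in 𝓝 t, (a + θ t) / 2 < θ x := ht.eventually_const_lt (by linarith)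
    obtain ⟨t', ht', ht'2⟩ : ∃ t', t' < t ∧ (a + θ t) / 2 < θ t' := by
      have h3 : ∀ᶠ x in 𝓝[<] t, (a + θ t) / 2 < θ x ∧ x < t :=
        (hev.filter_mono nhdsWithin_le_nhds).and self_mem_nhdsWithin
      obtain ⟨x, hx⟩ := h3.exists
      exact ⟨x, hx.2, hx.1⟩
    have hl1 : ∀ᶠ n in atTop, ε n < (θ t - a) / 2 :=
      hlim.eventually_lt_const (by linarith)
    have hl2 : Tendsto (fun n => (1 - ε n) * t' + ε n * (a / (2 * π))) atTop (𝓝 t') := by
      have := ((tendsto_const_nhds (x := (1:ℝ))).sub hlim).mul_const t' |>.add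
        (hlim.mul_const (a / (2 * π)))
      simpa using this
    filter_upwards [hl1, hl2.eventually_lt_const ht'] with n hn1 hn2
    have h4 : LF θ (a + ε n) ≤ t' := LF_le hθ hs (by linarith)
    have h5 := h2 n a
    have h6 := mul_le_mul_of_nonneg_left h4 (by linarith [hε1 n] : 0 ≤ 1 - ε n)
    have h7 : H n a < t := by linarith
    have := (hH n).Th_strictMono h7
    rwa [(hH n).Th_F] at this
  · intro a ha
    have hev : ∀ᶠ x in 𝓝 t, θ x < (a + θ t) / 2 := ht.eventually_lt_const (by linarith)
    obtain ⟨t', ht', ht'2⟩ : ∃ t', t < t' ∧ θ t' < (a + θ t) / 2 := by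
      have h3 : ∀ᶠ x in 𝓝[>] t, θ x < (a + θ t) / 2 ∧ t < x :=
        (hev.filter_mono nhdsWithin_le_nhds).and self_mem_nhdsWithin
      obtain ⟨x, hx⟩ := h3.exists
      exact ⟨x, hx.2, hx.1⟩
    have hl1 : ∀ᶠ n in atTop, ε n < (a - θ t) / 2 :=
      hlim.eventually_lt_const (by linarith)
    have hl2 : Tendsto (fun n => (1 - ε n) * t' + ε n * (a / (2 * π))) atTop (𝓝 t') := by
      have := ((tendsto_const_nhds (x := (1:ℝ))).sub hlim).mul_const t' |>.add
        (hlim.mul_const (a / (2 * π)))
      simpa using this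
    filter_upwards [hl1, hl2.eventually_const_lt ht'] with n hn1 hn2
    have h4 : t' ≤ LF θ (a - ε n) := LF_ge hθ hs (by linarith)
    have h5 := h1 n a
    have h6 := mul_le_mul_of_nonneg_left h4 (by linarith [hε1 n] : 0 ≤ 1 - ε n)
    have h7 : t < H n a := by linarith
    have := (hH n).Th_strictMono h7
    rwa [(hH n).Th_F] at this

theorem Tab_ftc {F : ℝ → ℝ} (hF : QF F) (p : ℂ) (q : ℝ) :
    Tab F p q = p + ∫ t in (0:ℝ)..q, Complex.exp ((Th F t : ℝ) * I) := by
  have hc : Continuous fun t => Complex.exp ((Th F t : ℝ) * I) :=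
    exp_cont.comp hF.Th_contDiff.continuous
  rw [intervalIntegral.integral_eq_sub_of_hasDerivAt (fun x _ => hF.Tab_hasDeriv p x)
    (hc.intervalIntegrable _ _), Tab_zero]
  ring

/-- **Theorem.** Every convex curve of length one (with a marked point, parametrised
counterclockwise by arc length) is the `C⁰`-limit of a sequence of billiard tables which is Cauchy
for the geometric distance. -/
theorem result {C : ℝ → ℂ} (hC : IsConvexCurve C) :
    ∃ α : ℕ → ℝ → ℂ, (∀ n, IsTable (α n)) ∧
      (∀ ε : ℝ≥0∞, 0 < ε → ∃ N, ∀ m ≥ N, ∀ n ≥ N, dB (α m) (α n) < ε) ∧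
      TendstoUniformly α C atTop := by
  have hpi := Real.pi_pos
  obtain ⟨θ, hθ, hs, hCθ⟩ := structure_thm hC
  have hc : ∫ t in (0:ℝ)..1, Complex.exp ((θ t : ℝ) * I) = 0 := by
    have h1 := hCθ 1
    have h2 := hC.periodic 0
    rw [zero_add] at h2
    rw [h2] at h1
    exact (left_eq_add.1 h1)
  have hQM := LF_QM hθ hc
  set ε : ℕ → ℝ := fun n => 1 / ((n : ℝ) + 2) with hεdef
  have hε : ∀ n, 0 < ε n := fun n => by simp only [hεdef]; positivity
  have hε1 : ∀ n, ε n < 1 := fun n => by
    simp only [hεdef]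
    rw [div_lt_one (by positivity)]
    have : (0:ℝ) ≤ n := Nat.cast_nonneg n
    linarith
  have hlim : Tendsto ε atTop (𝓝 0) := by
    have h1 : Tendsto (fun n : ℕ => (n : ℝ) + 2) atTop atTop :=
      tendsto_atTop_add_const_right _ _ tendsto_natCast_atTop_atTop
    simp only [hεdef, one_div]
    exact h1.inv_tendsto_atTop
  choose H hH h1 h2 using fun n => moll hQM (hε n) (hε1 n)
  -- the bound of `F`
  set B := max |LF θ (-1)| |LF θ (2 * π + 1)| with hB
  have hBF : ∀ y ∈ Icc (-1:ℝ) (2 * π + 1), |LF θ y| ≤ B := by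
    intro y hy
    have l1 := hQM.mono hy.1
    have l2 := hQM.mono hy.2
    rw [abs_le]
    constructor
    · have := neg_abs_le (LF θ (-1))
      have := le_max_left |LF θ (-1)| |LF θ (2 * π + 1)|
      linarith
    · have := le_abs_self (LF θ (2 * π + 1))
      have := le_max_right |LF θ (-1)| |LF θ (2 * π + 1)|
      linarith
  have hB0 : 0 ≤ B := (abs_nonneg _).trans (le_max_left _ _)
  set K := 2 + 2 * π * (B + 1) with hK
  have hK0 : 0 < K := by positivity
  have hL1 : ∀ n, ∫ y in (0:ℝ)..(2 * π), |H n y - LF θ y| ≤ K * ε n := fun n =>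
    moll_L1 hQM (hH n) (hε n) (hε1 n) hBF (h1 n) (h2 n)
  have hL2 : ∀ m n, ∫ y in (0:ℝ)..(2 * π), |H n y - H m y| ≤ K * ε n + K * ε m := by
    intro m n
    have i1 : IntervalIntegrable (fun y => |H n y - LF θ y|) volume 0 (2 * π) :=
      (((hH n).smooth.continuous.intervalIntegrable _ _).sub hQM.mono.intervalIntegrable).abs
    have i2 : IntervalIntegrable (fun y => |H m y - LF θ y|) volume 0 (2 * π) :=
      (((hH m).smooth.continuous.intervalIntegrable _ _).sub hQM.mono.intervalIntegrable).abs
    calc ∫ y in (0:ℝ)..(2 * π), |H n y - H m y|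
        ≤ ∫ y in (0:ℝ)..(2 * π), (|H n y - LF θ y| + |H m y - LF θ y|) := by
          apply intervalIntegral.integral_mono_on (by positivity)
          · exact (((hH n).smooth.continuous.sub (hH m).smooth.continuous).abs).intervalIntegrable _ _
          · exact i1.add i2
          · intro y _
            have := abs_sub_le (H n y) (LF θ y) (H m y)
            rw [abs_sub_comm (LF θ y)] at this
            exact this
      _ = (∫ y in (0:ℝ)..(2 * π), |H n y - LF θ y|) + ∫ y in (0:ℝ)..(2 * π), |H m y - LF θ y| :=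
          intervalIntegral.integral_add i1 i2
      _ ≤ _ := add_le_add (hL1 n) (hL1 m)
  -- the bound for the derivative of the transition function
  obtain ⟨M, hM⟩ := (isCompact_Icc (a := (0:ℝ)) (b := 1)).exists_bound_of_continuousOn
    ((Real.smoothTransition.contDiff (n := 1)).continuous_deriv le_rfl).continuousOn
  have hM0 : 0 ≤ M := (norm_nonneg _).trans (hM 0 ⟨le_refl _, zero_le_one⟩)
  refine ⟨fun n => Tab (H n) (C 0), fun n => (hH n).isTable _, ?_, ?_⟩
  · intro e he
    obtain ⟨r, hr0, hre⟩ := ENNReal.lt_iff_exists_nnreal_btwn.1 he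
    have hr : (0:ℝ) < r := by
      have : (0:NNReal) < r := by exact_mod_cast hr0
      exact_mod_cast this
    have hev : ∀ᶠ n in atTop, M * (K * ε n) < r / 2 := by
      have : Tendsto (fun n => M * (K * ε n)) atTop (𝓝 (M * (K * 0))) :=
        (hlim.const_mul K).const_mul M
      rw [mul_zero, mul_zero] at this
      exact this.eventually_lt_const (by linarith)
    obtain ⟨N, hN⟩ := Filter.eventually_atTop.1 hev
    refine ⟨N, fun m hm n hn => ?_⟩
    refine lt_of_le_of_lt (homotopy_exists (hH m) (hH n) (C 0) hM) (lt_of_le_of_lt ?_ hre)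
    rw [← ENNReal.ofReal_coe_nnreal]
    apply ENNReal.ofReal_le_ofReal
    have a1 := hN m hm
    have a2 := hN n hn
    have a3 := mul_le_mul_of_nonneg_left (hL2 m n) hM0
    rw [mul_add] at a3
    linarith
  · -- uniform convergence
    have hθm : Measurable θ := hθ.measurable
    have hTm : ∀ n, Measurable fun t => Complex.exp ((Th (H n) t : ℝ) * I) := fun n =>
      (exp_cont.comp (hH n).Th_contDiff.continuous).measurable
    have hθe : Measurable fun t => Complex.exp ((θ t : ℝ) * I) := exp_cont.measurable.comp hθm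
    have hJ : Tendsto (fun n => ∫ t in (0:ℝ)..1,
        ‖Complex.exp ((Th (H n) t : ℝ) * I) - Complex.exp ((θ t : ℝ) * I)‖) atTop
        (𝓝 (∫ t in (0:ℝ)..1, (0:ℝ))) := by
      apply intervalIntegral.tendsto_integral_filter_of_dominated_convergence (fun _ => (2:ℝ))
      · filter_upwards with n
        exact ((hTm n).sub hθe).norm.aestronglyMeasurable
      · filter_upwards with n
        filter_upwards with t _
        rw [norm_norm]
        refine (norm_sub_le _ _).trans ?_
        rw [exp_norm, exp_norm]; norm_num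
      · exact intervalIntegrable_const
      · have hcount : volume {t | ¬ ContinuousAt θ t} = 0 :=
          hθ.countable_not_continuousAt.measure_zero volume
        have hae : ∀ᵐ t : ℝ, ContinuousAt θ t := hcount
        filter_upwards [hae] with t ht _
        have h3 := moll_tendsto hθ hs hH hε1 hlim h1 h2 ht
        have h4 : Tendsto (fun n => Complex.exp ((Th (H n) t : ℝ) * I)) atTop
            (𝓝 (Complex.exp ((θ t : ℝ) * I))) := (exp_cont.tendsto (θ t)).comp h3
        have h5 := (h4.sub_const (Complex.exp ((θ t : ℝ) * I))).norm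
        simpa using h5
    simp only [intervalIntegral.integral_zero] at hJ
    rw [Metric.tendstoUniformly_iff]
    intro e he
    filter_upwards [hJ.eventually_lt_const he] with n hn
    -- the estimate on `[0,1]`
    have hei : ∀ a b, IntervalIntegrable (fun t => Complex.exp ((θ t : ℝ) * I)) volume a b :=
      bdd_int (K := 1) hθe (fun x => by rw [exp_norm])
    have hTi : ∀ a b, IntervalIntegrable (fun t => Complex.exp ((Th (H n) t : ℝ) * I)) volume a b :=
      bdd_int (K := 1) (hTm n) (fun x => by rw [exp_norm])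
    have hest : ∀ q ∈ Ico (0:ℝ) 1, dist (C q) (Tab (H n) (C 0) q) < e := by
      intro q hq
      rw [dist_comm, dist_eq_norm, Tab_ftc (hH n), hCθ q, add_sub_add_left_eq_sub,
        ← intervalIntegral.integral_sub (hTi _ _) (hei _ _)]
      refine lt_of_le_of_lt ?_ hn
      refine (intervalIntegral.norm_integral_le_integral_norm hq.1).trans ?_
      apply intervalIntegral.integral_mono_interval le_rfl hq.1 hq.2.le
      · filter_upwards with t; exact norm_nonneg _
      · exact ((hTi 0 1).sub (hei 0 1)).norm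
    intro x
    have hp : Function.Periodic (fun q => dist (C q) (Tab (H n) (C 0) q)) 1 := by
      intro q
      simp only
      rw [hC.periodic q, (hH n).Tab_periodic (C 0) q]
    obtain ⟨y, hy, hye⟩ := hp.exists_mem_Ico₀ (by norm_num : (0:ℝ) < 1) x
    have hye' : dist (C x) (Tab (H n) (C 0) x) = dist (C y) (Tab (H n) (C 0) y) := hye
    rw [hye']
    exact hest y hy

end Pool.Agent.Results.MP_fd4af6_gt.BilliardApprox
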